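import Pool.Agent.MWLE.StmtsA

/-!
# Block MWLE, row PST: counting in the image under `psi e`
-/

set_option autoImplicit false

namespace Pool.Agent.MWLE.H58

open Pool.Agent.Helper14_MV Pool.Agent.Helper2_MV
open Pool.Agent.MWK (pre Gw)
open Pool.Agent.MWF (Ap gaml dbl)
open Pool.Agent.MWGN (nn Gz E0 P0 A0 Tau gh)
open Pool.Agent.MWLE

theorem psi_count (e d c : ℕ) (hc : c ≠ e) (h5 : c % 5 ≠ 4) :
    (psi e d).count c = [d].count c := by
  unfold psi
  by_cases h1 : d = e
  · subst h1
    rw [if_pos rfl, List.count_nil, List.count_singleton]
    simp [Ne.symm hc]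
  · rw [if_neg h1]
    by_cases h2 : d % 5 = 4
    · have hdc : d ≠ c := by rintro rfl; exact h5 h2
      rw [if_pos h2]
      simp [List.count_cons, hdc]
    · rw [if_neg h2]

theorem psi_count4 (e d c : ℕ) (he : e ≤ 1) (h5 : c % 5 = 4) :
    (psi e d).count c = 2 * [d].count c := by
  unfold psi
  by_cases h1 : d = e
  · subst h1
    have hdc : d ≠ c := by rintro rfl; omega
    rw [if_pos rfl]
    simp [List.count_cons, hdc]
  · rw [if_neg h1]
    by_cases h2 : d % 5 = 4
    · rw [if_pos h2]
      by_cases hdc : d = c
      · subst hdc; simp
      · simp [List.count_cons, hdc]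
    · have hdc : d ≠ c := by rintro rfl; exact h2 h5
      rw [if_neg h2]
      simp [List.count_cons, hdc]

theorem cnt1 (e c : ℕ) (hc : c ≠ e) (h5 : c % 5 ≠ 4) (W : List ℕ) :
    (W.flatMap (psi e)).count c = W.count c := by
  induction W with
  | nil => rfl
  | cons d W ih =>
    have h := psi_count e d c hc h5
    rw [List.flatMap_cons, List.count_append, ih, h, ← List.count_append, List.singleton_append]

theorem cnt2 (e c : ℕ) (he : e ≤ 1) (h5 : c % 5 = 4) (W : List ℕ) :
    (W.flatMap (psi e)).count c = 2 * W.count c := by
  induction W with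
  | nil => rfl
  | cons d W ih =>
    have h := psi_count4 e d c he h5
    have h2 : (d :: W).count c = [d].count c + W.count c := by
      rw [← List.count_append, List.singleton_append]
    rw [List.flatMap_cons, List.count_append, ih, h, h2]
    ring

theorem pre3 (e q : ℕ) (hq : q ≠ e) (h5 : q % 5 ≠ 4) (W : List ℕ) :
    pre (W.flatMap (psi e)) q = (pre W q).flatMap (psi e) := by
  induction W with
  | nil => rfl
  | cons d W ih =>
    unfold pre at ih ⊢
    by_cases hd : d = q
    · subst hd
      have hp : psi e d = [d] := by
        unfold psi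
        rw [if_neg hq, if_neg h5]
      rw [List.flatMap_cons, hp, List.singleton_append, List.takeWhile_cons_of_neg (by simp),
        List.takeWhile_cons_of_neg (by simp)]
      rfl
    · have hp : ∀ c ∈ psi e d, decide (c ≠ q) = true := by
        intro c hc
        unfold psi at hc
        split at hc
        · simp at hc
        · split at hc
          · simp only [List.mem_cons, List.not_mem_nil, or_false, or_self] at hc
            subst hc; simpa using hd
          · simp only [List.mem_cons, List.not_mem_nil, or_false] at hc
            subst hc; simpa using hd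
      rw [List.flatMap_cons, List.takeWhile_append_of_pos hp, ih,
        List.takeWhile_cons_of_pos (by simpa using hd), List.flatMap_cons]

theorem fil6 (e : ℕ) (F : ℕ → Bool) (W : List ℕ) :
    (W.flatMap (psi e)).filter F = (W.filter F).flatMap (psi e) := by
  induction W with
  | nil => rfl
  | cons d W ih =>
    rw [List.flatMap_cons, List.filter_append, ih, List.filter_cons]
    by_cases hF : F d = true
    · rw [if_pos hF, List.flatMap_cons]
      congr 1
      unfold psi
      split
      · rfl
      · split <;> simp [hF]
    · rw [if_neg hF]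
      have h0 : (psi e d).filter F = [] := by
        unfold psi
        split
        · rfl
        · split <;> simp [hF]
      rw [h0, List.nil_append]

/-- **PST** -/
theorem pst : PstStmt := by
  intro e W he
  refine ⟨fun c hc h5 => cnt1 e c hc h5 W, fun c h5 => cnt2 e c he h5 W,
    fun q hq h5 => pre3 e q hq h5 W, ?_, ?_, fun F => fil6 e F W⟩
  · intro c q hc hq hc5 hq5
    unfold nn
    rw [pre3 e q hq hq5, cnt1 e c hc hc5]
  · intro c q hq hc5 hq5
    unfold nn
    rw [pre3 e q hq hq5, cnt2 e c he hc5]

end Pool.Agent.MWLE.H58
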